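import Pool.Agent.H73.SMD.Stmts

/-!
# Board smd (MP_e1af46_an), row GRA: the values on the graph (helper70)
-/

set_option autoImplicit false

open Set Filter Topology MeasureTheory Metric

namespace Pool.SMD

open Pool.PHS Pool.LPC

theorem gra_Phi (ψ : ℂ → Cn 2) (φ : ℂ → ℂ) (ν : Cn 2) (ρ ε : ℝ) (u : ℂ) :
    Phi ψ φ ν ρ ε (u, gr φ u) = ψ ((ρ : ℂ) * u) := by
  unfold Phi gr
  have : φ u - 88 * (1 + (-1 + φ u / 88)) = 0 := by ring
  simp only [this, mul_zero, zero_smul, add_zero]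

theorem gra_diff {φ : ℂ → ℂ} (hφ : Aux φ) : DifferentiableOn ℂ (gr φ) (ball 0 (1 + 1 / 100)) := by
  unfold gr
  exact (hφ.hol.div_const 88).const_add (-1)

theorem gra_zero {φ : ℂ → ℂ} (hφ : Aux φ) : ‖gr φ 0‖ < 1 := by
  unfold gr
  rw [hφ.zero]
  have : (-1 + 1 / 2 / 88 : ℂ) = ((-(175 / 176) : ℝ) : ℂ) := by
    push_cast
    norm_num
  rw [this, Complex.norm_real, Real.norm_eq_abs]
  norm_num [abs_of_pos]

theorem GRA_thm : GRAStmt := by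
  intro r h ν ψ φ ρ ε δ G hφ hψ hρ hρ1 hδ hδ1 hsec hG hGh
  have hgd := gra_diff hφ
  -- a neighbourhood
  have hc : ContinuousAt (gr φ) 0 :=
    (hgd.differentiableAt (ball_mem_nhds _ (by norm_num))).continuousAt
  have hev : ∀ᶠ u in 𝓝 (0 : ℂ), ‖gr φ u‖ < 1 + δ :=
    hc.norm.eventually (gt_mem_nhds (by linarith [gra_zero hφ] : ‖gr φ 0‖ < 1 + δ))
  obtain ⟨κ₀, hκ₀, hκ⟩ := Metric.eventually_nhds_iff_ball.1 hev
  have hpos : 0 < min κ₀ 1 := lt_min hκ₀ one_pos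
  refine ⟨min κ₀ 1, hpos, ?_⟩
  have hnorm : ∀ u ∈ ball (0 : ℂ) (min κ₀ 1), ‖u‖ < 1 ∧ ‖u‖ < κ₀ := by
    intro u hu
    rw [mem_ball_zero_iff] at hu
    exact ⟨hu.trans_le (min_le_right _ _), hu.trans_le (min_le_left _ _)⟩
  have hBD : ∀ u ∈ ball (0 : ℂ) (min κ₀ 1), (u, gr φ u) ∈ BD δ := by
    intro u hu
    obtain ⟨h1, h2⟩ := hnorm u hu
    exact ⟨by show ‖u‖ < 1 + δ; linarith, hκ u (mem_ball_zero_iff.2 h2)⟩
  have hsub : ball (0 : ℂ) (min κ₀ 1) ⊆ ball 0 (1 + 1 / 100) := by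
    intro u hu
    rw [mem_ball_zero_iff]
    linarith [(hnorm u hu).1]
  have hρu : ∀ u ∈ ball (0 : ℂ) (min κ₀ 1), (ρ : ℂ) * u ∈ ball (0 : ℂ) 2 := by
    intro u hu
    rw [mem_ball_zero_iff, norm_mul, Complex.norm_real, Real.norm_eq_abs, abs_of_pos hρ]
    have := (hnorm u hu).1
    nlinarith [norm_nonneg u]
  -- both sides are holomorphic
  have hF : DifferentiableOn ℂ (fun u => G (u, gr φ u)) (ball (0 : ℂ) (min κ₀ 1)) :=
    hG.comp (differentiableOn_id.prodMk (hgd.mono hsub)) hBD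
  have hH : DifferentiableOn ℂ (fun u : ℂ => ψ ((ρ : ℂ) * u)) (ball (0 : ℂ) (min κ₀ 1)) :=
    hψ.comp ((differentiableOn_id (𝕜 := ℂ)).const_mul (ρ : ℂ)) hρu
  have hFa := hF.analyticOnNhd isOpen_ball
  have hHa := hH.analyticOnNhd isOpen_ball
  -- equality in the sector
  have hsect : ∀ u ∈ ball (0 : ℂ) (min κ₀ 1), ‖u‖ < 2 * u.re →
      G (u, gr φ u) = ψ ((ρ : ℂ) * u) := by
    intro u hu hs
    have h1 : ‖(ρ : ℂ) * u‖ < 2 * ((ρ : ℂ) * u).re := by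
      rw [norm_mul, Complex.norm_real, Real.norm_eq_abs, abs_of_pos hρ, Complex.re_ofReal_mul]
      nlinarith
    obtain ⟨h2, h3⟩ := hsec _ (hρu u hu) h1
    have h4 := hGh (u, gr φ u) (hBD u hu) (by rw [gra_Phi]; exact h2)
    rw [h4, gra_Phi, h3]
  have hu0 : ((min κ₀ 1 / 2 : ℝ) : ℂ) ∈ ball (0 : ℂ) (min κ₀ 1) := by
    rw [mem_ball_zero_iff, Complex.norm_real, Real.norm_eq_abs, abs_of_pos (by positivity)]
    linarith
  have hopen : IsOpen {u : ℂ | ‖u‖ < 2 * u.re} :=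
    isOpen_lt continuous_norm (continuous_const.mul Complex.continuous_re)
  have hmem : ((min κ₀ 1 / 2 : ℝ) : ℂ) ∈ {u : ℂ | ‖u‖ < 2 * u.re} := by
    show ‖((min κ₀ 1 / 2 : ℝ) : ℂ)‖ < 2 * ((min κ₀ 1 / 2 : ℝ) : ℂ).re
    rw [Complex.norm_real, Real.norm_eq_abs, abs_of_pos (by positivity), Complex.ofReal_re]
    linarith
  have heq : (fun u => G (u, gr φ u)) =ᶠ[𝓝 ((min κ₀ 1 / 2 : ℝ) : ℂ)]
      fun u : ℂ => ψ ((ρ : ℂ) * u) := by
    filter_upwards [isOpen_ball.mem_nhds hu0, hopen.mem_nhds hmem] with u h1 h2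
    exact hsect u h1 h2
  have hall := hFa.eqOn_of_preconnected_of_eventuallyEq hHa
    (convex_ball (0 : ℂ) (min κ₀ 1)).isPreconnected hu0 heq
  exact fun u hu => ⟨hBD u hu, hall hu⟩

end Pool.SMD
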